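import Pool.Agent.W744.GL.Stm
import Pool.Agent.Helper503.Gp.Char1
import Pool.Agent.Helper503.Gp.Cay

set_option autoImplicit false

open Metric Set Filter Topology Complex
open scoped ComplexConjugate

namespace Pool.Agent.W154.GL.ULCH

open Pool.Agent.W744.GL Pool.Agent.Helper503.Gp

theorem pt_char {z : ℂ} (hz : 0 < z.im) : IsChar (pt z) := by
  have ha := cay_mem hz
  refine ⟨?_, ?_, ?_, ?_⟩
  · simp [pt, char_le_one]
  · intro f hf g hg
    refine ⟨?_, ?_, fun h => ?_⟩
    · simp [pt, hf, hg, char_le_add hf hg]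
    · simp [pt, hf, hg, char_le_mul hf hg]
    · simp [pt, hf, hg, h ha]
  · intro c f hf
    simp [pt, hf, char_le_smul c hf]
  · intro f hf
    simp [pt, hf]

theorem ulim_tendsto {ι : Type} (U : Ultrafilter ι) (χ : ι → (ℂ → ℂ) → ℂ)
    (h : ∀ i, IsChar (χ i)) (f : ℂ → ℂ) :
    Tendsto (fun i => χ i f) U (𝓝 (ulim U χ f)) := by
  by_cases hf : f ∈ HI
  · obtain ⟨C, hC⟩ := hf.2
    have hb : ∀ i, χ i f ∈ Metric.closedBall (0 : ℂ) C := fun i => by
      rw [mem_closedBall_zero_iff]
      exact char_le (h i) hf hC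
    have hcpt : IsCompact (Metric.closedBall (0 : ℂ) C) := isCompact_closedBall 0 C
    obtain ⟨x, -, hx⟩ := isCompact_iff_ultrafilter_le_nhds.1 hcpt (U.map (fun i => χ i f)) (by
      rw [Filter.le_principal_iff]
      exact Ultrafilter.mem_map.2 (Filter.mem_of_superset Filter.univ_mem (fun i _ => hb i)))
    exact tendsto_nhds_limUnder ⟨x, hx⟩
  · have h0 : (fun i => χ i f) = fun _ => 0 := by
      funext i
      exact (h i).2.2.2 f hf
    exact tendsto_nhds_limUnder ⟨0, by rw [h0]; exact tendsto_const_nhds⟩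

theorem main : S_ULCH := by
  refine ⟨fun z hz => pt_char hz, fun ι U χ h => ⟨?_, ulim_tendsto U χ h⟩⟩
  have ht := ulim_tendsto U χ h
  refine ⟨?_, ?_, ?_, ?_⟩
  · refine tendsto_nhds_unique (ht 1) ?_
    have h0 : (fun i => χ i 1) = fun _ => 1 := funext (fun i => (h i).1)
    rw [h0]
    exact tendsto_const_nhds
  · intro f hf g hg
    refine ⟨?_, ?_, fun hfg => ?_⟩
    · refine tendsto_nhds_unique (ht (f + g)) (((ht f).add (ht g)).congr (fun i => ?_))
      exact ((h i).2.1 f hf g hg).1.symm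
    · refine tendsto_nhds_unique (ht (f * g)) (((ht f).mul (ht g)).congr (fun i => ?_))
      exact ((h i).2.1 f hf g hg).2.1.symm
    · refine tendsto_nhds_unique (ht f) ((ht g).congr (fun i => ?_))
      exact (((h i).2.1 f hf g hg).2.2 hfg).symm
  · intro c f hf
    refine tendsto_nhds_unique (ht (c • f)) (((ht f).const_mul c).congr (fun i => ?_))
    exact ((h i).2.2.1 c f hf).symm
  · intro f hf
    refine tendsto_nhds_unique (ht f) ?_
    have h0 : (fun i => χ i f) = fun _ => 0 := funext (fun i => (h i).2.2.2 f hf)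
    rw [h0]
    exact tendsto_const_nhds

end Pool.Agent.W154.GL.ULCH
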